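import Pool.Agent.Helper45.LGB.St

set_option autoImplicit false

/-!
Module PKU of project LGB: packings, subadditivity and monotonicity.
-/

namespace Pool.Agent.Helper92.LGB

open Pool.Agent.Helper45.LGB

private lemma pk_mono {ι : Type} (E : ι → ι → Prop) (r n n' : ℕ) (T T' : Set ι)
    (h : Pk E r n T) (hn : n' ≤ n) (hT : T ⊆ T') : Pk E r n' T' := by
  obtain ⟨P, hc, hP, hd⟩ := h
  obtain ⟨Q, hQ, hQc⟩ := Finset.exists_subset_card_eq (hc.symm ▸ hn : n' ≤ P.card)
  exact ⟨Q, hQc, fun a ha => hT (hP a (hQ ha)), fun a ha b hb => hd a (hQ ha) b (hQ hb)⟩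

private lemma pk_sub {ι : Type} (E : ι → ι → Prop) (r a b : ℕ) (T A B : Set ι)
    (h : Pk E r (a + b + 1) T) (hT : ∀ i ∈ T, i ∈ A ∨ i ∈ B) :
    Pk E r (a + 1) A ∨ Pk E r (b + 1) B := by
  classical
  obtain ⟨P, hc, hP, hd⟩ := h
  have hcard : (P.filter (fun i => i ∈ A)).card + (P.filter (fun i => ¬ i ∈ A)).card = P.card :=
    Finset.card_filter_add_card_filter_not (fun i => i ∈ A)
  by_cases hA : a + 1 ≤ (P.filter (fun i => i ∈ A)).card
  · left
    obtain ⟨Q, hQ, hQc⟩ := Finset.exists_subset_card_eq hA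
    refine ⟨Q, hQc, fun i hi => (Finset.mem_filter.1 (hQ hi)).2, fun i hi j hj => ?_⟩
    exact hd i (Finset.mem_filter.1 (hQ hi)).1 j (Finset.mem_filter.1 (hQ hj)).1
  · right
    have hB : b + 1 ≤ (P.filter (fun i => ¬ i ∈ A)).card := by omega
    obtain ⟨Q, hQ, hQc⟩ := Finset.exists_subset_card_eq hB
    refine ⟨Q, hQc, fun i hi => ?_, fun i hi j hj => ?_⟩
    · have h1 := Finset.mem_filter.1 (hQ hi)
      exact (hT i (hP i h1.1)).resolve_left h1.2
    · exact hd i (Finset.mem_filter.1 (hQ hi)).1 j (Finset.mem_filter.1 (hQ hj)).1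

private lemma pk_us {ι : Type} (E : ι → ι → Prop) (r q : ℕ) (us : List (List ι)) :
    ∀ (T : Set ι), Pk E r (us.length * q + 1) T → (∀ i ∈ T, ∃ u' ∈ us, i ∈ u') →
      ∃ u' ∈ us, Pk E r (q + 1) (ltr u') := by
  induction us with
  | nil =>
    intro T h hT
    obtain ⟨P, hc, hP, -⟩ := h
    have hne : P.Nonempty := by
      rw [← Finset.card_pos, hc]
      omega
    obtain ⟨i, hi⟩ := hne
    obtain ⟨u', hu', -⟩ := hT i (hP i hi)
    simp at hu'
  | cons u0 us ih =>
    intro T h hT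
    have h1 : (u0 :: us).length * q + 1 = us.length * q + q + 1 := by
      rw [List.length_cons]
      ring
    rw [h1] at h
    rcases pk_sub E r (us.length * q) q T {i | ∃ u' ∈ us, i ∈ u'} (ltr u0) h (by
      intro i hi
      obtain ⟨u', hu', hi'⟩ := hT i hi
      rcases List.mem_cons.1 hu' with h2 | h2
      · right
        subst h2
        exact hi'
      · left
        exact ⟨u', h2, hi'⟩) with h2 | h2
    · obtain ⟨u', hu', hk⟩ := ih _ h2 (fun i hi => hi)
      exact ⟨u', List.mem_cons_of_mem _ hu', hk⟩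
    · exact ⟨u0, List.mem_cons_self, h2⟩

theorem hPKU (hNRT : StNRT) : StPKU := by
  classical
  intro ι E
  refine ⟨fun r a b T A B => pk_sub E r a b T A B, fun r n n' T T' => pk_mono E r n n' T T',
    ?_, fun r q T us => pk_us E r q us T, ?_⟩
  · intro r r' n T hr h
    obtain ⟨P, hc, hP, hd⟩ := h
    exact ⟨P, hc, hP, fun a ha b hb hab hn =>
      hd a ha b hb hab ((hNRT ι E).2.1 r r' a b hr hn)⟩
  · intro r n T x h
    obtain ⟨P, hc, hP, hd⟩ := h
    have hle : n ≤ (P.erase x).card := by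
      have := Finset.pred_card_le_card_erase (s := P) (a := x)
      omega
    obtain ⟨Q, hQ, hQc⟩ := Finset.exists_subset_card_eq hle
    refine ⟨Q, hQc, fun i hi => ?_, fun i hi j hj => ?_⟩
    · have h1 := Finset.mem_erase.1 (hQ hi)
      exact ⟨hP i h1.2, h1.1⟩
    · exact hd i (Finset.mem_erase.1 (hQ hi)).2 j (Finset.mem_erase.1 (hQ hj)).2

end Pool.Agent.Helper92.LGB
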